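import Pool.Agent.P8H18.RR.Stm

/-! # RR/PRI (helper45): from prime powers to primes by partial summation -/

set_option autoImplicit false

namespace Pool.Agent.P8H45.RR

open Finset Pool.Agent.P8H18.RR

/-- Abel's inequality -/
theorem abel (w : ℕ → ℝ) (hw : Antitone w) (h0 : ∀ n, 0 ≤ w n) (f : ℕ → ℂ) (B : ℝ) (n : ℕ)
    (hB : ∀ m ≤ n, ‖∑ k ∈ range m, f k‖ ≤ B) : ‖∑ k ∈ range n, (w k : ℂ) * f k‖ ≤ w 0 * B := by
  cases n with
  | zero =>
    simpa using mul_nonneg (h0 0) ((norm_nonneg _).trans (hB 0 le_rfl))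
  | succ n =>
    have key : ∀ n, ∑ k ∈ range (n + 1), (w k : ℂ) * f k = (w n : ℂ) * (∑ k ∈ range (n + 1), f k) +
        ∑ k ∈ range n, ((w k - w (k + 1) : ℝ) : ℂ) * ∑ j ∈ range (k + 1), f j := by
      intro n
      induction n with
      | zero => simp
      | succ n ih =>
        rw [sum_range_succ, ih, sum_range_succ (fun k => ((w k - w (k + 1) : ℝ) : ℂ) * ∑ j ∈ range (k + 1), f j) n,
          sum_range_succ f (n + 1)]
        push_cast
        ring
    rw [key]
    have h1 : ‖(w n : ℂ) * (∑ k ∈ range (n + 1), f k)‖ ≤ w n * B := by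
      rw [norm_mul, Complex.norm_real, Real.norm_eq_abs, abs_of_nonneg (h0 n)]
      exact mul_le_mul_of_nonneg_left (hB _ le_rfl) (h0 n)
    have h2 : ‖∑ k ∈ range n, ((w k - w (k + 1) : ℝ) : ℂ) * ∑ j ∈ range (k + 1), f j‖ ≤ (w 0 - w n) * B := by
      refine (norm_sum_le _ _).trans ?_
      rw [← sum_range_sub' w n, sum_mul]
      refine sum_le_sum fun k hk => ?_
      have hk' := mem_range.1 hk
      have h3 : 0 ≤ w k - w (k + 1) := sub_nonneg.2 (hw (Nat.le_succ k))
      rw [norm_mul, Complex.norm_real, Real.norm_eq_abs, abs_of_nonneg h3]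
      exact mul_le_mul_of_nonneg_left (hB _ (by omega)) h3
    calc _ ≤ w n * B + (w 0 - w n) * B := (norm_add_le _ _).trans (add_le_add h1 h2)
      _ = w 0 * B := by ring

theorem norm_ee (x : ℝ) : ‖ee x‖ = 1 := by
  unfold ee
  rw [show (2 * (Real.pi : ℂ) * Complex.I * (x : ℂ)) = ((2 * Real.pi * x : ℝ) : ℂ) * Complex.I by push_cast; ring]
  exact Complex.norm_exp_ofReal_mul_I _

theorem sum_Icc_range {M : Type} [AddCommMonoid M] (g : ℕ → M) (x : ℕ) :
    ∑ n ∈ Icc 1 x, g n = ∑ k ∈ range x, g (k + 1) := by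
  induction x with
  | zero => simp
  | succ x ih => rw [sum_Icc_succ_top (by omega), ih, sum_range_succ]

/-- the weights `1 / log n` -/
noncomputable def wt (k : ℕ) : ℝ := 1 / Real.log (max 2 ((k : ℝ) + 1))

theorem wt_anti : Antitone wt := by
  intro a b hab
  unfold wt
  have h1 : (0 : ℝ) < Real.log (max 2 ((a : ℝ) + 1)) := Real.log_pos (lt_of_lt_of_le (by norm_num) (le_max_left _ _))
  refine one_div_le_one_div_of_le h1 (Real.log_le_log (lt_of_lt_of_le (by norm_num) (le_max_left _ _)) ?_)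
  have : (a : ℝ) ≤ b := by exact_mod_cast hab
  exact max_le_max le_rfl (by linarith)

theorem wt_nonneg (k : ℕ) : 0 ≤ wt k := by
  unfold wt
  have h1 : (0 : ℝ) < Real.log (max 2 ((k : ℝ) + 1)) := Real.log_pos (lt_of_lt_of_le (by norm_num) (le_max_left _ _))
  positivity

/-- the terms -/
noncomputable def tm (α : ℝ) (n : ℕ) : ℂ := if n.Prime then ((Real.log n : ℝ) : ℂ) * ee ((n : ℝ) * α) else 0

theorem diff_le (α : ℝ) (y N : ℕ) (hy : y ≤ N) (hN : 1 ≤ N) :
    ‖SL y α - ∑ n ∈ Icc 1 y, tm α n‖ ≤ 2 * √(N : ℝ) * Real.log N := by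
  have hlN : 0 ≤ Real.log N := Real.log_nonneg (by exact_mod_cast hN)
  rcases Nat.eq_zero_or_pos y with h0 | h0
  · subst h0
    simp only [SL]
    simp
    positivity
  · have e : SL y α - ∑ n ∈ Icc 1 y, tm α n =
        ∑ n ∈ (Icc 1 y).filter (fun n => ¬ n.Prime), ((ArithmeticFunction.vonMangoldt n : ℝ) : ℂ) * ee ((n : ℝ) * α) := by
      unfold SL
      rw [← sum_sub_distrib, sum_filter]
      refine sum_congr rfl fun n _ => ?_
      unfold tm
      by_cases hn : n.Prime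
      · rw [if_pos hn, if_neg (not_not.2 hn), ArithmeticFunction.vonMangoldt_apply_prime hn, sub_self]
      · rw [if_neg hn, if_pos hn, sub_zero]
    rw [e]
    have h1 : ‖∑ n ∈ (Icc 1 y).filter (fun n => ¬ n.Prime), ((ArithmeticFunction.vonMangoldt n : ℝ) : ℂ) * ee ((n : ℝ) * α)‖ ≤
        ∑ n ∈ (Icc 1 y).filter (fun n => ¬ n.Prime), ArithmeticFunction.vonMangoldt n := by
      refine (norm_sum_le _ _).trans (sum_le_sum fun n _ => ?_)
      rw [norm_mul, norm_ee, mul_one, Complex.norm_real, Real.norm_eq_abs, abs_of_nonneg ArithmeticFunction.vonMangoldt_nonneg]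
    have h2 := Chebyshev.psi_sub_theta_eq_sum_not_prime (y : ℝ)
    rw [Nat.floor_natCast] at h2
    have h3 : (Ioc 0 y) = Icc 1 y := by ext n; simp [Nat.succ_le_iff]
    rw [h3] at h2
    rw [← h2] at h1
    have hy1 : (1 : ℝ) ≤ y := by exact_mod_cast h0
    have hyN : (y : ℝ) ≤ N := by exact_mod_cast hy
    refine h1.trans ((Chebyshev.psi_sub_theta_le hy1).trans ?_)
    have h4 : √(y : ℝ) ≤ √(N : ℝ) := Real.sqrt_le_sqrt hyN
    have h5 : Real.log y ≤ Real.log N := Real.log_le_log (by linarith) hyN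
    have h6 : 0 ≤ Real.log y := Real.log_nonneg hy1
    exact mul_le_mul (mul_le_mul_of_nonneg_left h4 (by norm_num)) h5 h6 (by positivity)

theorem pri : S_PRI := by
  have hl2 : 0 < Real.log 2 := Real.log_pos (by norm_num)
  refine ⟨2 / Real.log 2, by positivity, fun N hN α B hB hS x hx => ?_⟩
  have hlN : 0 ≤ Real.log N := Real.log_nonneg (by exact_mod_cast hN)
  have e : ∑ p ∈ (Icc 1 x).filter Nat.Prime, ee ((p : ℝ) * α) =
      ∑ k ∈ range x, (wt k : ℂ) * tm α (k + 1) := by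
    rw [sum_filter, sum_Icc_range]
    refine sum_congr rfl fun k _ => ?_
    unfold tm
    by_cases hk : (k + 1).Prime
    · rw [if_pos hk, if_pos hk]
      have h2 : (2 : ℝ) ≤ (k : ℝ) + 1 := by exact_mod_cast hk.two_le
      have hlog : Real.log ((k : ℝ) + 1) ≠ 0 := (Real.log_pos (by linarith)).ne'
      unfold wt
      rw [max_eq_right h2, ← mul_assoc, ← Complex.ofReal_mul]
      push_cast
      have hlog' : ((Real.log ((k : ℝ) + 1) : ℝ) : ℂ) ≠ 0 := Complex.ofReal_ne_zero.2 hlog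
      rw [one_div, inv_mul_cancel₀ hlog', one_mul]
    · rw [if_neg hk, if_neg hk, mul_zero]
  rw [e]
  have hb : ∀ m ≤ x, ‖∑ k ∈ range m, tm α (k + 1)‖ ≤ B + 2 * √(N : ℝ) * Real.log N := by
    intro m hm
    rw [← sum_Icc_range (tm α) m]
    have h1 := diff_le α m N (hm.trans hx) hN
    have h2 := hS m (hm.trans hx)
    have h3 : ∑ n ∈ Icc 1 m, tm α n = SL m α - (SL m α - ∑ n ∈ Icc 1 m, tm α n) := by ring
    rw [h3]
    exact (norm_sub_le _ _).trans (add_le_add h2 h1)
  refine (abel wt wt_anti wt_nonneg _ _ x hb).trans ?_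
  have hw : wt 0 = 1 / Real.log 2 := by
    unfold wt
    norm_num
  rw [hw]
  have hsq : 0 ≤ √(N : ℝ) := Real.sqrt_nonneg _
  rw [div_mul_eq_mul_div, div_mul_eq_mul_div, div_le_div_iff_of_pos_right hl2]
  nlinarith [mul_nonneg hsq hlN]

end Pool.Agent.P8H45.RR
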