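import Pool.Agent.P8H45.RR.Maj1

/-! # RR/MAJ (helper45), part 2: the major arcs -/

set_option autoImplicit false

namespace Pool.Agent.P8H45.RR

open Finset Pool.Agent.P8H18.RR

theorem shift_ex (p r : ℕ) (hp : p.Prime) (hr : r.Prime) (hpr : p * r = 10) (hne : p ≠ r) (J : ℕ) (hJ : 1 ≤ J)
    (q : ℕ) (hq1 : 1 ≤ q) (hq : p ^ 2 ∣ q) (a : ℤ) (hco : IsCoprime a (q : ℤ)) :
    ∃ s : ℕ, 10 ∣ s ∧ ee ((s : ℝ) * ((a : ℝ) / q)) ≠ 1 := by
  obtain ⟨m, rfl⟩ := hq
  have hm : m ≠ 0 := by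
    rintro rfl
    simp at hq1
  refine ⟨p * m * r ^ J, ?_, fun h => ?_⟩
  · rw [← hpr]
    obtain ⟨J, rfl⟩ : ∃ J', J = J' + 1 := ⟨J - 1, by omega⟩
    exact ⟨m * r ^ J, by ring⟩
  · obtain ⟨k, hk⟩ := ee_eq_one h
    have hm0 : (m : ℝ) ≠ 0 := by exact_mod_cast hm
    have hp0 : (p : ℝ) ≠ 0 := by exact_mod_cast hp.ne_zero
    have h1 : (r : ℝ) ^ J * a = k * p := by
      push_cast at hk
      field_simp at hk
      linear_combination hk
    have h2 : (r : ℤ) ^ J * a = k * p := by exact_mod_cast h1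
    have h3 : (p : ℤ) ∣ (r : ℤ) ^ J * a := ⟨k, by rw [h2]; ring⟩
    have hpZ : Prime (p : ℤ) := Nat.prime_iff_prime_int.1 hp
    rcases hpZ.dvd_or_dvd h3 with h4 | h4
    · have h5 : (p : ℤ) ∣ r := hpZ.dvd_of_dvd_pow h4
      have h6 : p ∣ r := by exact_mod_cast h5
      exact hne ((Nat.prime_dvd_prime_iff_eq hp hr).1 h6)
    · have h5 : (p : ℤ) ∣ ((p ^ 2 * m : ℕ) : ℤ) := ⟨p * m, by push_cast; ring⟩
      exact hpZ.not_isUnit (hco.isUnit_of_dvd' h4 h5)

theorem exp_ex (q D : ℕ) (hq : q ∣ 10 ^ D) (hn : ¬ q ∣ 10) :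
    ∃ J : ℕ, 1 ≤ J ∧ q ∣ 10 ^ J ∧ 10 ^ J ≤ q ^ 4 ∧ (2 ^ 2 ∣ q ∨ 5 ^ 2 ∣ q) := by
  have h10 : (10 : ℕ) ^ D = 2 ^ D * 5 ^ D := by rw [← mul_pow]; norm_num
  rw [h10] at hq
  obtain ⟨x, y, hx, hy, rfl⟩ := (Nat.dvd_mul).1 hq
  obtain ⟨u, -, rfl⟩ := (Nat.dvd_prime_pow Nat.prime_two).1 hx
  obtain ⟨v, -, rfl⟩ := (Nat.dvd_prime_pow Nat.prime_five).1 hy
  have huv : 2 ≤ u ∨ 2 ≤ v := by
    by_contra hc
    push Not at hc
    apply hn
    have h1 : (2 : ℕ) ^ u ∣ 2 ^ 1 := pow_dvd_pow 2 (by omega)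
    have h2 : (5 : ℕ) ^ v ∣ 5 ^ 1 := pow_dvd_pow 5 (by omega)
    exact (mul_dvd_mul h1 h2).trans (by norm_num)
  have hle : 2 ^ max u v ≤ 2 ^ u * 5 ^ v := by
    rcases le_total u v with h | h
    · rw [max_eq_right h]
      calc 2 ^ v ≤ 5 ^ v := Nat.pow_le_pow_left (by norm_num) v
        _ ≤ 2 ^ u * 5 ^ v := Nat.le_mul_of_pos_left _ (by positivity)
    · rw [max_eq_left h]
      exact Nat.le_mul_of_pos_right _ (by positivity)
  refine ⟨max u v, ?_, ?_, ?_, ?_⟩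
  · omega
  · rw [show (10 : ℕ) = 2 * 5 by norm_num, mul_pow]
    exact mul_dvd_mul (pow_dvd_pow 2 (le_max_left _ _)) (pow_dvd_pow 5 (le_max_right _ _))
  · calc 10 ^ max u v ≤ 16 ^ max u v := Nat.pow_le_pow_left (by norm_num) _
      _ = (2 ^ max u v) ^ 4 := by rw [show (16 : ℕ) = 2 ^ 4 by norm_num, ← pow_mul, ← pow_mul, mul_comm]
      _ ≤ _ := Nat.pow_le_pow_left hle 4
  · rcases huv with h | h
    · exact Or.inl (Dvd.dvd.mul_right (pow_dvd_pow 2 h) _)
    · exact Or.inr (Dvd.dvd.mul_left (pow_dvd_pow 5 h) _)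

theorem nonunit_bound (J D y : ℕ) (hD : 1 ≤ D) (hy : y ≤ 10 ^ D) (α : ℝ) :
    ‖∑ n ∈ Icc 1 y, (if IsUnit (n : ZMod (10 ^ J)) then 0 else
      ((ArithmeticFunction.vonMangoldt n : ℝ) : ℂ) * ee ((n : ℝ) * α))‖ ≤ 40 * (D : ℝ) := by
  classical
  set A : Finset ℕ := (range (4 * D + 1)).image (fun k => 2 ^ k) ∪ (range (4 * D + 1)).image (fun k => 5 ^ k) with hA
  have hterm : ∀ n ∈ Icc 1 y, ‖(if IsUnit (n : ZMod (10 ^ J)) then 0 else
      ((ArithmeticFunction.vonMangoldt n : ℝ) : ℂ) * ee ((n : ℝ) * α))‖ ≤ if n ∈ A then (4 : ℝ) else 0 := by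
    intro n hn
    have h0 : (0 : ℝ) ≤ if n ∈ A then (4 : ℝ) else 0 := by split_ifs <;> norm_num
    by_cases hu : IsUnit (n : ZMod (10 ^ J))
    · rw [if_pos hu, norm_zero]
      exact h0
    · rw [if_neg hu, norm_mul, norm_ee, mul_one, Complex.norm_real, Real.norm_eq_abs,
        abs_of_nonneg ArithmeticFunction.vonMangoldt_nonneg]
      by_cases hL : ArithmeticFunction.vonMangoldt n = 0
      · rw [hL]
        exact h0
      · rw [← ne_eq, ArithmeticFunction.vonMangoldt_ne_zero_iff, isPrimePow_nat_iff] at hL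
        obtain ⟨p, k, hp, hk, rfl⟩ := hL
        have hpk : ¬ p.Coprime 10 := fun h => hu ((ZMod.isUnit_iff_coprime _ _).2 (h.pow k J))
        have hpd : p ∣ 10 := by
          by_contra hc
          exact hpk ((Nat.Prime.coprime_iff_not_dvd hp).2 hc)
        have hp25 : p = 2 ∨ p = 5 := by
          rw [show (10 : ℕ) = 2 * 5 by norm_num, hp.dvd_mul, Nat.prime_dvd_prime_iff_eq hp Nat.prime_two,
            Nat.prime_dvd_prime_iff_eq hp Nat.prime_five] at hpd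
          exact hpd
        have hk4 : k < 4 * D + 1 := by
          have h1 : 2 ^ k ≤ 2 ^ (4 * D) := by
            calc 2 ^ k ≤ p ^ k := Nat.pow_le_pow_left hp.two_le k
              _ ≤ y := (mem_Icc.1 hn).2
              _ ≤ 10 ^ D := hy
              _ ≤ 16 ^ D := Nat.pow_le_pow_left (by norm_num) D
              _ = 2 ^ (4 * D) := by rw [show (16 : ℕ) = 2 ^ 4 by norm_num, ← pow_mul]
          have := (Nat.pow_le_pow_iff_right (by norm_num : 1 < 2)).1 h1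
          omega
        have hmem : p ^ k ∈ A := by
          rw [hA, mem_union, mem_image, mem_image]
          rcases hp25 with rfl | rfl
          · exact Or.inl ⟨k, mem_range.2 hk4, rfl⟩
          · exact Or.inr ⟨k, mem_range.2 hk4, rfl⟩
        rw [if_pos hmem, ArithmeticFunction.vonMangoldt_apply_pow hk.ne', ArithmeticFunction.vonMangoldt_apply_prime hp]
        have h1 : (p : ℝ) ≤ 5 := by rcases hp25 with rfl | rfl <;> norm_num
        have h2 := Real.log_le_sub_one_of_pos (show (0 : ℝ) < p by exact_mod_cast hp.pos)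
        linarith
  refine (norm_sum_le _ _).trans ((sum_le_sum hterm).trans ?_)
  rw [← sum_filter, sum_const, nsmul_eq_mul]
  have hc : ((Icc 1 y).filter (fun n => n ∈ A)).card ≤ 2 * (4 * D + 1) := by
    calc _ ≤ A.card := card_le_card fun n hn => (mem_filter.1 hn).2
      _ ≤ _ := card_union_le _ _
      _ ≤ (range (4 * D + 1)).card + (range (4 * D + 1)).card := add_le_add card_image_le card_image_le
      _ = _ := by rw [card_range]; ring
  have hc' : (((Icc 1 y).filter (fun n => n ∈ A)).card : ℝ) ≤ 2 * (4 * D + 1) := by exact_mod_cast hc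
  have hD' : (1 : ℝ) ≤ D := by exact_mod_cast hD
  linarith

theorem maj : S_MAJA := by
  rintro ⟨c0, C0, hc0, hC0, hpsi⟩
  set c := min c0 1 / 20 with hc
  have hcpos : 0 < c := by
    have : 0 < min c0 1 := lt_min hc0 one_pos
    positivity
  have hc1 : 20 * c ≤ c0 := by
    have := min_le_left c0 (1 : ℝ)
    rw [hc]
    linarith
  have hc2 : 20 * c ≤ 1 := by
    have := min_le_right c0 (1 : ℝ)
    rw [hc]
    linarith
  refine ⟨c, 8 * C0 + 320, hcpos, by positivity, ?_⟩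
  intro D hD q a hq1 hqD hq10 hco hqc β hβ x hx
  set S := √(D : ℝ) with hS
  have hD1 : (1 : ℝ) ≤ D := by exact_mod_cast hD
  have hS0 : 0 ≤ S := Real.sqrt_nonneg _
  have hSD : S ≤ D := by
    rw [hS, Real.sqrt_le_iff]
    constructor
    · linarith
    · nlinarith
  obtain ⟨J, hJ1, hqJ, hJq, hsq⟩ := exp_ex q D hqD hq10
  obtain ⟨s, hs, hne⟩ : ∃ s : ℕ, 10 ∣ s ∧ ee ((s : ℝ) * ((a : ℝ) / q)) ≠ 1 := by
    rcases hsq with h | h
    · exact shift_ex 2 5 Nat.prime_two Nat.prime_five (by norm_num) (by norm_num) J hJ1 q hq1 h a hco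
    · exact shift_ex 5 2 Nat.prime_five Nat.prime_two (by norm_num) (by norm_num) J hJ1 q hq1 h a hco
  -- `10^J ≤ exp(4 c S)`
  have hM : (10 : ℝ) ^ J ≤ Real.exp (4 * (c * S)) := by
    calc (10 : ℝ) ^ J ≤ (q : ℝ) ^ 4 := by exact_mod_cast hJq
      _ ≤ Real.exp (c * S) ^ 4 := pow_le_pow_left₀ (by positivity) hqc 4
      _ = Real.exp (4 * (c * S)) := by rw [← Real.exp_nat_mul]; norm_num
  have hcS : 0 ≤ c * S := by positivity
  have h4 : 4 * (c * S) ≤ c0 * S := by nlinarith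
  have hMc : (10 : ℝ) ^ J ≤ Real.exp (c0 * S) := hM.trans (Real.exp_le_exp.2 h4)
  set P : ℝ := C0 * 10 ^ D * Real.exp (-(c0 * S)) with hP
  have hP0 : 0 ≤ P := by positivity
  -- partial sums
  have hpart : ∀ m ≤ x, ‖∑ k ∈ range m, (((ArithmeticFunction.vonMangoldt (k + 1) : ℝ) : ℂ) *
      ee (((k + 1 : ℕ) : ℝ) * ((a : ℝ) / q)))‖ ≤ (10 : ℝ) ^ J * P + 40 * (D : ℝ) := by
    intro m hm
    rw [← sum_Icc_range (fun n => ((ArithmeticFunction.vonMangoldt n : ℝ) : ℂ) * ee ((n : ℝ) * ((a : ℝ) / q))) m]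
    have e : ∑ n ∈ Icc 1 m, ((ArithmeticFunction.vonMangoldt n : ℝ) : ℂ) * ee ((n : ℝ) * ((a : ℝ) / q)) =
        (∑ n ∈ Icc 1 m, (if IsUnit (n : ZMod (10 ^ J)) then
          ((ArithmeticFunction.vonMangoldt n : ℝ) : ℂ) * ee ((n : ℝ) * ((a : ℝ) / q)) else 0)) +
        ∑ n ∈ Icc 1 m, (if IsUnit (n : ZMod (10 ^ J)) then 0 else
          ((ArithmeticFunction.vonMangoldt n : ℝ) : ℂ) * ee ((n : ℝ) * ((a : ℝ) / q))) := by
      rw [← sum_add_distrib]
      refine sum_congr rfl fun n _ => ?_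
      split_ifs <;> simp
    rw [e]
    refine (norm_add_le _ _).trans (add_le_add ?_ (nonunit_bound J D m hD (hm.trans hx) _))
    exact T_bound J hJ1 q hq1 hqJ a s hs hne m P hP0 (fun χ hχ => hpsi D hD J hMc χ hχ m (hm.trans hx))
  have hSL : SL x ((a : ℝ) / q + β) = ∑ k ∈ range x, ee (((k + 1 : ℕ) : ℝ) * β) *
      (((ArithmeticFunction.vonMangoldt (k + 1) : ℝ) : ℂ) * ee (((k + 1 : ℕ) : ℝ) * ((a : ℝ) / q))) := by
    unfold SL
    rw [sum_Icc_range]
    refine sum_congr rfl fun k _ => ?_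
    rw [mul_add, ee_add]
    ring
  rw [hSL]
  have hδ : (0 : ℝ) ≤ 2 * Real.pi * |β| := by positivity
  refine (psum _ (fun k => ee (((k + 1 : ℕ) : ℝ) * β)) _ (2 * Real.pi * |β|) x hpart (fun k => (norm_ee _).le) hδ
    (fun k => ?_)).trans ?_
  · have e : ee (((k + 1 : ℕ) : ℝ) * β) - ee (((k + 1 + 1 : ℕ) : ℝ) * β) = ee (((k + 1 : ℕ) : ℝ) * β) * (1 - ee β) := by
      rw [mul_sub, mul_one, ← ee_add]
      congr 2
      push_cast
      ring
    rw [e, norm_mul, norm_ee, one_mul]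
    exact norm_one_sub_ee β
  · have hx' : (x : ℝ) ≤ 10 ^ D := by exact_mod_cast hx
    have h10 : (0 : ℝ) < 10 ^ D := by positivity
    have hfac : 1 + (x : ℝ) * (2 * Real.pi * |β|) ≤ 8 * Real.exp (c * S) := by
      have h1 : (x : ℝ) * |β| ≤ Real.exp (c * S) := by
        calc (x : ℝ) * |β| ≤ 10 ^ D * (Real.exp (c * S) / 10 ^ D) :=
              mul_le_mul hx' hβ (abs_nonneg _) h10.le
          _ = Real.exp (c * S) := by field_simp
      have h2 : 1 ≤ Real.exp (c * S) := Real.one_le_exp hcS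
      have h3 : Real.pi ≤ 3.5 := by linarith [Real.pi_lt_d2]
      have h5 : 0 ≤ (x : ℝ) * |β| := by positivity
      nlinarith [Real.pi_pos]
    have hE0 : 0 ≤ (10 : ℝ) ^ J * P + 40 * (D : ℝ) := by positivity
    refine (mul_le_mul_of_nonneg_left hfac hE0).trans ?_
    have t1 : (10 : ℝ) ^ J * P * (8 * Real.exp (c * S)) ≤ 8 * C0 * 10 ^ D * Real.exp (-(c * S)) := by
      calc (10 : ℝ) ^ J * P * (8 * Real.exp (c * S)) ≤ Real.exp (4 * (c * S)) * P * (8 * Real.exp (c * S)) := by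
            gcongr
        _ = 8 * C0 * 10 ^ D * Real.exp (4 * (c * S) + -(c0 * S) + c * S) := by
            rw [Real.exp_add, Real.exp_add, hP]
            ring
        _ ≤ 8 * C0 * 10 ^ D * Real.exp (-(c * S)) := by
            refine mul_le_mul_of_nonneg_left (Real.exp_le_exp.2 ?_) (by positivity)
            nlinarith
    have t2 : 40 * (D : ℝ) * (8 * Real.exp (c * S)) ≤ 320 * 10 ^ D * Real.exp (-(c * S)) := by
      have h1 : (D : ℝ) * Real.exp (2 * (c * S)) ≤ 10 ^ D := by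
        have h2 : Real.exp (2 * (c * S)) ≤ 2 ^ D := by
          rw [← Real.exp_log (show (0 : ℝ) < 2 ^ D by positivity), Real.exp_le_exp, Real.log_pow]
          have h3 := Real.log_two_gt_d9
          nlinarith
        have h3 : (D : ℝ) ≤ 2 ^ D := by exact_mod_cast (Nat.lt_two_pow_self).le
        calc (D : ℝ) * Real.exp (2 * (c * S)) ≤ 2 ^ D * 2 ^ D := mul_le_mul h3 h2 (Real.exp_pos _).le (by positivity)
          _ = 4 ^ D := by rw [← mul_pow]; norm_num
          _ ≤ 10 ^ D := pow_le_pow_left₀ (by norm_num) (by norm_num) D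
      calc 40 * (D : ℝ) * (8 * Real.exp (c * S)) = 320 * ((D : ℝ) * Real.exp (2 * (c * S))) * Real.exp (-(c * S)) := by
            have : Real.exp (c * S) = Real.exp (2 * (c * S)) * Real.exp (-(c * S)) := by
              rw [← Real.exp_add]
              congr 1
              ring
            rw [this]
            ring
        _ ≤ 320 * 10 ^ D * Real.exp (-(c * S)) := by gcongr
    calc ((10 : ℝ) ^ J * P + 40 * (D : ℝ)) * (8 * Real.exp (c * S)) =
          (10 : ℝ) ^ J * P * (8 * Real.exp (c * S)) + 40 * (D : ℝ) * (8 * Real.exp (c * S)) := by ring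
      _ ≤ 8 * C0 * 10 ^ D * Real.exp (-(c * S)) + 320 * 10 ^ D * Real.exp (-(c * S)) := add_le_add t1 t2
      _ = (8 * C0 + 320) * 10 ^ D * Real.exp (-(c * S)) := by ring

end Pool.Agent.P8H45.RR
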