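import Pool.Agent.P8H45.RR.Pri

/-! # RR/MAJ (helper45), part 1: the character sums -/

set_option autoImplicit false

namespace Pool.Agent.P8H45.RR

open Finset Pool.Agent.P8H18.RR

theorem ee_add (x y : ℝ) : ee (x + y) = ee x * ee y := by
  unfold ee
  rw [← Complex.exp_add]
  congr 1
  push_cast
  ring

theorem ee_int (k : ℤ) : ee (k : ℝ) = 1 := by
  unfold ee
  rw [Complex.exp_eq_one_iff]
  exact ⟨k, by push_cast; ring⟩

theorem ee_eq_one {x : ℝ} (h : ee x = 1) : ∃ k : ℤ, x = k := by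
  unfold ee at h
  rw [Complex.exp_eq_one_iff] at h
  obtain ⟨n, hn⟩ := h
  refine ⟨n, ?_⟩
  have h0 : (2 * Real.pi * Complex.I : ℂ) ≠ 0 := Complex.two_pi_I_ne_zero
  have h2 : ((x : ℝ) : ℂ) = n := by
    apply mul_left_cancel₀ h0
    linear_combination hn
  exact_mod_cast h2

theorem norm_one_sub_ee (β : ℝ) : ‖1 - ee β‖ ≤ 2 * Real.pi * |β| := by
  have h := Real.norm_exp_I_mul_ofReal_sub_one_le (x := 2 * Real.pi * β)
  rw [norm_sub_rev]
  unfold ee
  rw [show (2 * (Real.pi : ℂ) * Complex.I * (β : ℂ)) = Complex.I * ((2 * Real.pi * β : ℝ) : ℂ) by push_cast; ring]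
  refine h.trans (le_of_eq ?_)
  rw [Real.norm_eq_abs, abs_mul, abs_of_pos Real.two_pi_pos]

/-- partial summation with a slowly varying factor -/
theorem psum (f g : ℕ → ℂ) (E δ : ℝ) (n : ℕ) (hE : ∀ m ≤ n, ‖∑ k ∈ range m, f k‖ ≤ E)
    (hg : ∀ k, ‖g k‖ ≤ 1) (hδ : 0 ≤ δ) (hd : ∀ k, ‖g k - g (k + 1)‖ ≤ δ) :
    ‖∑ k ∈ range n, g k * f k‖ ≤ E * (1 + n * δ) := by
  have hE0 : 0 ≤ E := (norm_nonneg _).trans (hE 0 (Nat.zero_le _))
  cases n with
  | zero => simpa using hE0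
  | succ n =>
    have key : ∀ n, ∑ k ∈ range (n + 1), g k * f k = g n * (∑ k ∈ range (n + 1), f k) +
        ∑ k ∈ range n, (g k - g (k + 1)) * ∑ j ∈ range (k + 1), f j := by
      intro n
      induction n with
      | zero => simp
      | succ n ih =>
        rw [sum_range_succ, ih, sum_range_succ (fun k => (g k - g (k + 1)) * ∑ j ∈ range (k + 1), f j) n,
          sum_range_succ f (n + 1)]
        ring
    rw [key]
    have h1 : ‖g n * (∑ k ∈ range (n + 1), f k)‖ ≤ 1 * E := by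
      rw [norm_mul]
      exact mul_le_mul (hg n) (hE _ le_rfl) (norm_nonneg _) zero_le_one
    have h2 : ‖∑ k ∈ range n, (g k - g (k + 1)) * ∑ j ∈ range (k + 1), f j‖ ≤ n * (δ * E) := by
      refine (norm_sum_le _ _).trans ?_
      calc _ ≤ ∑ k ∈ range n, δ * E := by
            refine sum_le_sum fun k hk => ?_
            have hk' := mem_range.1 hk
            rw [norm_mul]
            exact mul_le_mul (hd k) (hE _ (by omega)) (norm_nonneg _) hδ
        _ = n * (δ * E) := by simp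
    have h3 : (n : ℝ) * (δ * E) ≤ ((n + 1 : ℕ) : ℝ) * (δ * E) := by
      push_cast
      nlinarith [mul_nonneg hδ hE0]
    calc _ ≤ 1 * E + n * (δ * E) := (norm_add_le _ _).trans (add_le_add h1 h2)
      _ ≤ 1 * E + ((n + 1 : ℕ) : ℝ) * (δ * E) := by linarith
      _ = E * (1 + ((n + 1 : ℕ) : ℝ) * δ) := by ring

/-- the additive character -/
noncomputable def Ph (M q : ℕ) (a : ℤ) (b : ZMod M) : ℂ := ee ((b.val : ℝ) * ((a : ℝ) / q))

theorem ee_shift (q : ℕ) (hq : 1 ≤ q) (a : ℤ) (m k : ℕ) (h : q ∣ k) :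
    ee (((m + k : ℕ) : ℝ) * ((a : ℝ) / q)) = ee ((m : ℝ) * ((a : ℝ) / q)) := by
  obtain ⟨l, rfl⟩ := h
  have hq0 : (q : ℝ) ≠ 0 := by positivity
  have : (((m + q * l : ℕ) : ℝ) * ((a : ℝ) / q)) = (m : ℝ) * ((a : ℝ) / q) + ((l * a : ℤ) : ℝ) := by
    push_cast
    field_simp
  rw [this, ee_add, ee_int, mul_one]

theorem Ph_nat (M q : ℕ) (hq : 1 ≤ q) (hM : q ∣ M) (a : ℤ) (n : ℕ) :
    Ph M q a (n : ZMod M) = ee ((n : ℝ) * ((a : ℝ) / q)) := by
  unfold Ph
  rw [ZMod.val_natCast]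
  have h := ee_shift q hq a (n % M) (M * (n / M)) (Dvd.dvd.mul_right hM _)
  rw [Nat.mod_add_div] at h
  exact h.symm

theorem norm_Ph (M q : ℕ) (a : ℤ) (b : ZMod M) : ‖Ph M q a b‖ = 1 := norm_ee _

/-- the coefficient of the principal character vanishes -/
theorem coef_one (J : ℕ) (hJ : 1 ≤ J) (q : ℕ) (hq : 1 ≤ q) (hM : q ∣ 10 ^ J) (a : ℤ) (s : ℕ) (hs : 10 ∣ s)
    (hne : ee ((s : ℝ) * ((a : ℝ) / q)) ≠ 1) :
    ∑ b : ZMod (10 ^ J), (if IsUnit b then Ph (10 ^ J) q a b else 0) = 0 := by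
  have hnil : IsNilpotent ((s : ZMod (10 ^ J))) := by
    obtain ⟨t, rfl⟩ := hs
    refine ⟨J, ?_⟩
    rw [← Nat.cast_pow, mul_pow, Nat.cast_mul, ZMod.natCast_self, zero_mul]
  have hu : ∀ b : ZMod (10 ^ J), IsUnit (b + s) ↔ IsUnit b := by
    intro b
    constructor
    · intro h
      have := hnil.neg.isUnit_add_left_of_commute h (Commute.all _ _)
      rwa [add_neg_cancel_right] at this
    · intro h
      exact hnil.isUnit_add_left_of_commute h (Commute.all _ _)
  have hP : ∀ b : ZMod (10 ^ J), Ph (10 ^ J) q a (b + s) = ee ((s : ℝ) * ((a : ℝ) / q)) * Ph (10 ^ J) q a b := by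
    intro b
    have e1 : b + (s : ZMod (10 ^ J)) = ((b.val + s : ℕ) : ZMod (10 ^ J)) := by
      push_cast
      rw [ZMod.natCast_zmod_val]
    rw [e1, Ph_nat _ q hq hM]
    unfold Ph
    rw [← ee_add]
    congr 1
    push_cast
    ring
  set G : ZMod (10 ^ J) → ℂ := fun b => if IsUnit b then Ph (10 ^ J) q a b else 0 with hG
  have h1 : ∑ b, G (b + s) = ∑ b, G b := Equiv.sum_comp (Equiv.addRight (s : ZMod (10 ^ J))) G
  have h2 : ∑ b, G (b + s) = ee ((s : ℝ) * ((a : ℝ) / q)) * ∑ b, G b := by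
    rw [mul_sum]
    refine sum_congr rfl fun b _ => ?_
    simp only [hG]
    by_cases hb : IsUnit b
    · rw [if_pos hb, if_pos ((hu b).2 hb), hP]
    · rw [if_neg hb, if_neg (fun h => hb ((hu b).1 h)), mul_zero]
  rw [h2] at h1
  have h3 : (ee ((s : ℝ) * ((a : ℝ) / q)) - 1) * ∑ b, G b = 0 := by
    rw [sub_mul, h1, one_mul, sub_self]
  exact (mul_eq_zero.1 h3).resolve_left (sub_ne_zero.2 hne)

/-- the sum over the integers prime to ten -/
theorem T_bound (J : ℕ) (hJ : 1 ≤ J) (q : ℕ) (hq : 1 ≤ q) (hM : q ∣ 10 ^ J) (a : ℤ) (s : ℕ) (hs : 10 ∣ s)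
    (hne : ee ((s : ℝ) * ((a : ℝ) / q)) ≠ 1) (y : ℕ) (P : ℝ) (hP0 : 0 ≤ P)
    (hP : ∀ χ : DirichletCharacter ℂ (10 ^ J), χ ≠ 1 →
      ‖∑ n ∈ Icc 1 y, χ (n : ZMod (10 ^ J)) * ((ArithmeticFunction.vonMangoldt n : ℝ) : ℂ)‖ ≤ P) :
    ‖∑ n ∈ Icc 1 y, (if IsUnit (n : ZMod (10 ^ J)) then
      ((ArithmeticFunction.vonMangoldt n : ℝ) : ℂ) * ee ((n : ℝ) * ((a : ℝ) / q)) else 0)‖ ≤ (10 : ℝ) ^ J * P := by
  classical
  have htot : 0 < (10 ^ J).totient := Nat.totient_pos.2 (by positivity)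
  have htot' : (((10 ^ J).totient : ℕ) : ℂ) ≠ 0 := by exact_mod_cast htot.ne'
  -- the coefficients
  set c : DirichletCharacter ℂ (10 ^ J) → ℂ := fun χ =>
    ∑ b : ZMod (10 ^ J), (if IsUnit b then Ph (10 ^ J) q a b else 0) * χ b⁻¹ with hc
  have hc1 : c 1 = 0 := by
    rw [← coef_one J hJ q hq hM a s hs hne]
    refine sum_congr rfl fun b _ => ?_
    by_cases hb : IsUnit b
    · rw [if_pos hb]
      have hb' : IsUnit b⁻¹ := by
        obtain ⟨u, rfl⟩ := hb
        exact ⟨u⁻¹, by simp⟩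
      rw [MulChar.one_apply hb', mul_one]
    · rw [if_neg hb, zero_mul]
  have hcn : ∀ χ, ‖c χ‖ ≤ ((10 ^ J).totient : ℕ) := by
    intro χ
    refine (norm_sum_le _ _).trans ?_
    have : ∀ b : ZMod (10 ^ J), ‖(if IsUnit b then Ph (10 ^ J) q a b else 0) * χ b⁻¹‖ ≤
        if IsUnit b then (1 : ℝ) else 0 := by
      intro b
      by_cases hb : IsUnit b
      · rw [if_pos hb, if_pos hb, norm_mul, norm_Ph, one_mul]
        exact χ.norm_le_one _
      · rw [if_neg hb, if_neg hb, zero_mul, norm_zero]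
    refine (sum_le_sum fun b _ => this b).trans (le_of_eq ?_)
    rw [← sum_filter, sum_const, nsmul_eq_mul, mul_one, Nat.cast_inj, ← ZMod.card_units_eq_totient,
      ← card_univ, ← card_image_of_injective univ (Units.val_injective (α := ZMod (10 ^ J)))]
    congr 1
    ext b
    simp only [mem_filter, mem_univ, true_and, mem_image]
    rfl
  have horth : ∀ n : ℕ, (((10 ^ J).totient : ℕ) : ℂ) * (if IsUnit (n : ZMod (10 ^ J)) then
      ee ((n : ℝ) * ((a : ℝ) / q)) else 0) = ∑ χ : DirichletCharacter ℂ (10 ^ J), c χ * χ (n : ZMod (10 ^ J)) := by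
    intro n
    simp only [hc, sum_mul]
    rw [sum_comm]
    have h1 : ∀ b : ZMod (10 ^ J), ∑ χ : DirichletCharacter ℂ (10 ^ J),
        (if IsUnit b then Ph (10 ^ J) q a b else 0) * χ b⁻¹ * χ (n : ZMod (10 ^ J)) =
        if b = (n : ZMod (10 ^ J)) then (((10 ^ J).totient : ℕ) : ℂ) *
          (if IsUnit b then Ph (10 ^ J) q a b else 0) else 0 := by
      intro b
      by_cases hb : IsUnit b
      · simp only [if_pos hb, mul_assoc]
        rw [← mul_sum, DirichletCharacter.sum_char_inv_mul_char_eq ℂ hb]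
        by_cases hbn : b = (n : ZMod (10 ^ J))
        · rw [if_pos hbn, if_pos hbn, mul_comm]
        · rw [if_neg hbn, if_neg hbn, mul_zero]
      · simp [if_neg hb]
    simp only [h1]
    rw [sum_ite_eq' univ (n : ZMod (10 ^ J)), if_pos (mem_univ _), Ph_nat _ q hq hM]
  have hmul : (((10 ^ J).totient : ℕ) : ℂ) * ∑ n ∈ Icc 1 y, (if IsUnit (n : ZMod (10 ^ J)) then
      ((ArithmeticFunction.vonMangoldt n : ℝ) : ℂ) * ee ((n : ℝ) * ((a : ℝ) / q)) else 0) =
      ∑ χ : DirichletCharacter ℂ (10 ^ J), c χ *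
        ∑ n ∈ Icc 1 y, χ (n : ZMod (10 ^ J)) * ((ArithmeticFunction.vonMangoldt n : ℝ) : ℂ) := by
    rw [mul_sum]
    simp only [mul_sum]
    rw [sum_comm]
    refine sum_congr rfl fun n _ => ?_
    have h := horth n
    calc _ = ((ArithmeticFunction.vonMangoldt n : ℝ) : ℂ) * ((((10 ^ J).totient : ℕ) : ℂ) *
          (if IsUnit (n : ZMod (10 ^ J)) then ee ((n : ℝ) * ((a : ℝ) / q)) else 0)) := by
            by_cases hn : IsUnit (n : ZMod (10 ^ J))
            · rw [if_pos hn, if_pos hn]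
              ring
            · rw [if_neg hn, if_neg hn]
              ring
      _ = _ := by
        rw [h, mul_sum]
        refine sum_congr rfl fun χ _ => ?_
        ring
  have hbd : ‖∑ χ : DirichletCharacter ℂ (10 ^ J), c χ *
        ∑ n ∈ Icc 1 y, χ (n : ZMod (10 ^ J)) * ((ArithmeticFunction.vonMangoldt n : ℝ) : ℂ)‖ ≤
      (((10 ^ J).totient : ℕ) : ℝ) * ((10 : ℝ) ^ J * P) := by
    refine (norm_sum_le _ _).trans ?_
    calc _ ≤ ∑ χ : DirichletCharacter ℂ (10 ^ J), (((10 ^ J).totient : ℕ) : ℝ) * P := by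
          refine sum_le_sum fun χ _ => ?_
          by_cases hχ : χ = 1
          · rw [hχ, hc1, zero_mul, norm_zero]
            positivity
          · rw [norm_mul]
            exact mul_le_mul (hcn χ) (hP χ hχ) (norm_nonneg _) (by positivity)
      _ = ((univ : Finset (DirichletCharacter ℂ (10 ^ J))).card : ℝ) * ((((10 ^ J).totient : ℕ) : ℝ) * P) := by
          rw [sum_const, nsmul_eq_mul]
      _ ≤ (10 : ℝ) ^ J * ((((10 ^ J).totient : ℕ) : ℝ) * P) := by
          refine mul_le_mul_of_nonneg_right ?_ (by positivity)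
          have h1 : (univ : Finset (DirichletCharacter ℂ (10 ^ J))).card = (10 ^ J).totient := by
            rw [card_univ, ← Nat.card_eq_fintype_card]
            exact DirichletCharacter.card_eq_totient_of_hasEnoughRootsOfUnity ℂ (10 ^ J)
          rw [h1]
          have h2 := Nat.totient_le (10 ^ J)
          exact_mod_cast h2
      _ = _ := by ring
  rw [← hmul, norm_mul, Complex.norm_natCast] at hbd
  exact le_of_mul_le_mul_left hbd (by exact_mod_cast htot)

end Pool.Agent.P8H45.RR
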